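import Pool.Agent.H.MP_f11573_an.FnU
import Pool.Agent.H.MP_f11573_an.FeS
import Pool.Agent.H.MP_f11573_an.AmM

/-!
MP_f11573_an: dense range implies onto for amenable sums of essentially local operators.

`K` is a compact Hausdorff space such that `C(K)` (real or complex) has the Grothendieck property, `M` is a monoid that acts on `K` by
continuous finite-to-one maps (for a group: homeomorphisms), and the action is amenable: topologically amenable, or `M` is
commutative, or `M` is an amenable group. `T` is in the operator norm closure of the set of the operators
`f ↦ ∑ g ∈ E, A g (f ∘ g)`, where `E ⊆ M` is finite and the operators `A g` are essentially local: their commutators with the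
multiplications by functions in `C(K)` are weakly compact (for instance `A g f = a g f + S g f`, `S g` weakly compact). For every scalar
`z`: if `T - z` has dense range then `T - z` is onto.
-/

set_option autoImplicit false

namespace Pool.Agent.Results.MP_f11573_an.AmenableOperators

open Pool.Agent.H.MP_f11573_an

theorem result {𝕜 : Type*} [RCLike 𝕜] {K : Type*} [TopologicalSpace K] [CompactSpace K]
    [T2Space K] {M : Type*} [Monoid M] [MulAction M K] [ContinuousConstSMul M K]
    (hK : Groth 𝕜 C(K, 𝕜)) (hF : FinTo M K) (hM : AmenAct M K)
    {T : C(K, 𝕜) →L[𝕜] C(K, 𝕜)} (hT : T ∈ closure (FunEss 𝕜 M K)) (z : 𝕜)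
    (hd : DenseRange (T - z • ContinuousLinearMap.id 𝕜 C(K, 𝕜))) :
    Function.Surjective (T - z • ContinuousLinearMap.id 𝕜 C(K, 𝕜)) :=
  onto_ess hK hF (topAmenM_of_amenAct hM) hd (funEss_sub z hT)

end Pool.Agent.Results.MP_f11573_an.AmenableOperators
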