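import Pool.Agent.H.MP_f11573_an.FnL

/-!
MP_f11573_an: an operator with dense range on a Grothendieck `C(K)` space is locally onto, with uniform constants.

`K` is a compact Hausdorff space such that `C(K)` (real or complex) has the Grothendieck property, and `T` is an operator on `C(K)` with
dense range. `LiftOn T L C` says that `T` lifts over `L` with the constant `C`: every `h` in `C(K)` agrees on `L` with `T f` for some `f` in
`C(K)` with `‖f‖ ≤ C ‖h‖`.

For every `C` there is a `C'` (it depends on `T` and `C` only) such that, whenever `T` lifts over the closed set `L` with the constant `C`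
and `P` is a finite set (no matter how large), `T` lifts over some closed neighbourhood of `L ∪ P` with the constant `C'`.

With `L` empty: there is one constant with which `T` lifts over a neighbourhood of every finite set.
-/

set_option autoImplicit false

namespace Pool.Agent.Results.MP_f11573_an.LocallyOnto

open Pool.Agent.H.MP_f11573_an

theorem result {𝕜 : Type*} [RCLike 𝕜] {K : Type*} [TopologicalSpace K] [CompactSpace K]
    [T2Space K] (hK : Groth 𝕜 C(K, 𝕜)) {T : C(K, 𝕜) →L[𝕜] C(K, 𝕜)} (hT : DenseRange T) (C : ℝ) :
    ∃ C' : ℝ, ∀ L : Set K, IsClosed L → LiftOn T L C → ∀ P : Set K, P.Finite →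
      ∃ U : Set K, IsOpen U ∧ L ∪ P ⊆ U ∧ LiftOn T (closure U) C' :=
  lift_open hK hT C

end Pool.Agent.Results.MP_f11573_an.LocallyOnto
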