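import Pool.Agent.H.MP_f11573_an.MdA

/-!
MP_f11573_an: dense range implies onto for disjointness preserving operators modulo weakly compact operators.

`K` is a compact Hausdorff space such that `C(K)` (real or complex) has the Grothendieck property. `T` is in the operator norm closure of
the set of the operators `A + S`, where `A` is separating (`f g = 0` implies `(A f) (A g) = 0`; for instance `A f = a (f ∘ φ)`) and
`S` is weakly compact. If `T` has dense range then `T` is onto.
-/

set_option autoImplicit false

namespace Pool.Agent.Results.MP_f11573_an.SeparatingOperators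

open Pool.Agent.H.MP_f11573_an

theorem result {𝕜 : Type*} [RCLike 𝕜] {K : Type*} [TopologicalSpace K] [CompactSpace K]
    [T2Space K] (hK : Groth 𝕜 C(K, 𝕜)) {T : C(K, 𝕜) →L[𝕜] C(K, 𝕜)}
    (hT : T ∈ ModW {A : C(K, 𝕜) →L[𝕜] C(K, 𝕜) | Sep A}) (hd : DenseRange T) :
    Function.Surjective T :=
  onto_of_modW hK (fun _ hA => glb_of_sep hA) hT hd

end Pool.Agent.Results.MP_f11573_an.SeparatingOperators
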