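import Pool.Agent.H.MP_f11573_an.MdA

/-!
MP_f11573_an: dense range implies onto on `ℓ_∞(D)` for weak-star continuous operators modulo weakly compact operators.

`K` is the Stone-Cech compactification of a discrete set `D` (`D` is a dense subset of `K` and every bounded function on `D` extends
to a continuous function on `K`), so `C(K)` is `ℓ_∞(D)`. `T` is in the operator norm closure of the set of the operators `A + S`, where `A`
is weak-star continuous (the adjoint of an operator on `ℓ_1(D)`) and `S` is weakly compact. For every scalar `z`: if `T - z` has dense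
range then `T - z` is onto.
-/

set_option autoImplicit false

namespace Pool.Agent.Results.MP_f11573_an.WeakStarOperators

open Pool.Agent.H.MP_f11573_an

theorem result {𝕜 : Type*} [RCLike 𝕜] {K : Type*} [TopologicalSpace K] [CompactSpace K]
    [T2Space K] (hK : Groth 𝕜 C(K, 𝕜)) {D : Set K} (hD : CechDisc 𝕜 D)
    {T : C(K, 𝕜) →L[𝕜] C(K, 𝕜)} (hT : T ∈ ModW {A : C(K, 𝕜) →L[𝕜] C(K, 𝕜) | WStar D A})
    (z : 𝕜) (hd : DenseRange (T - z • ContinuousLinearMap.id 𝕜 C(K, 𝕜))) :
    Function.Surjective (T - z • ContinuousLinearMap.id 𝕜 C(K, 𝕜)) :=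
  onto_of_modW (P := {A : C(K, 𝕜) →L[𝕜] C(K, 𝕜) | WStar D A}) hK
    (fun _ hA => glb_of_wstar hD hA)
    (modW_sub (P := {A : C(K, 𝕜) →L[𝕜] C(K, 𝕜) | WStar D A}) z
      (fun A hA => wStar_sub (A := A) z hA) hT) hd

end Pool.Agent.Results.MP_f11573_an.WeakStarOperators
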